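import Pool.Agent.H.MP_5f0f34_lc.D

set_option autoImplicit false

/-! The recursion for truth in a numbered structure. -/

namespace Pool.Agent.H.MP_f36693_lc

open Pool.Agent.Lib.helper21.PR Pool.Agent.H.MP_fa5791_lc Pool.Agent.H.MP_fa2eca_lc Filter Set Encodable Denumerable
open Function Nat.Partrec Nat.Partrec.Code Pool.Agent.H.MP_5f0f34_lc

attribute [local irreducible] Primrec Computable

/-- the omega-th jump of the empty set -/
noncomputable def Om (c : ℕ) : Bool := J^[c.unpair.1] O c.unpair.2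

variable {α β : Type} [Primcodable α] [Primcodable β] {p : α → Prop} {μ : α → ℕ} {Y : ℕ → Bool}

theorem arith {C : α → β → Prop} {F : α → β → List (α × Bool)} (hμ : Primrec μ)
    (hC : RE fun z : α × β => C z.1 z.2) (hF : Primrec fun z : α × β => F z.1 z.2)
    (h : ∀ a, p a ↔ ∃ d, C a d ∧ ∀ z ∈ F a d, μ z.1 < μ a ∧ (p z.1 ↔ z.2)) :
    ∃ f : α → ℕ, Computable f ∧ ∀ a, p a ↔ Om (f a) := by
  obtain ⟨c, hc⟩ := re_code (p := fun x : (ℕ × ℕ × α) × List Bool => ∃ d, C x.1.2.2 d ∧ ∀ z ∈ F x.1.2.2 d,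
    μ z.1 < μ x.1.2.2 ∧ x.2[Nat.pair x.1.1 (encode (x.1.1, x.1.2.1 - 1, z.1))]? = some z.2) (RE.re (by fun_prop))
  have k : ∀ n a, μ a ≤ n → (p a ↔ J^[n + 1] O (Nat.pair (encode c) (encode (encode c, n, a)))) := fun n => by
    induction n using Nat.strong_induction_on with
    | _ n ih =>
      intro a b
      have e : ∀ z, μ z < μ a → (p z ↔ J^[n] O (Nat.pair (encode c) (encode (encode c, n - 1, z)))) := fun z d => by
        rw [ih (n - 1) (by omega) z (by omega), Nat.sub_add_cancel (by omega)]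
      rw [iterate_succ_apply', J_iff, h]
      simp only [Nat.unpair_pair, ofNat_encode]
      refine .trans ⟨fun ⟨d, f, g⟩ => ?_, fun ⟨s, d, f, g⟩ => ⟨d, f, fun z m => ⟨(g z m).1, ?_⟩⟩⟩
        (exists_congr fun s => hc ((encode c, n, a), pre (J^[n] O) s))
      · obtain ⟨s, k⟩ := ((F a d).finite_toSet.image fun z => Nat.pair (encode c) (encode (encode c, n - 1, z.1))).bddAbove
        refine ⟨s + 1, d, f, fun z m => ⟨(g z m).1, ?_⟩⟩
        have := k (mem_image_of_mem _ m)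
        have := (e _ (g z m).1).symm.trans (g z m).2
        simp only [pre, List.getElem?_map]
        rw [List.getElem?_range (by omega), Option.map_some, Bool.eq_iff_iff.2 this]
      · obtain ⟨o, q⟩ := List.getElem?_eq_some_iff.1 (g z m).2
        rw [e _ (g z m).1, ← q]
        simp [pre]
  exact ⟨fun a => Nat.pair (μ a + 1) (Nat.pair (encode c) (encode (encode c, μ a, a))), by fun_prop, fun a => by simpa [Om] using k _ a le_rfl⟩

theorem lfp {C : α → β → Prop} {F : α → β → List α} (hC : RI Y fun z : α × β => C z.1 z.2)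
    (hF : Primrec fun z : α × β => F z.1 z.2) (h : ∀ a, p a ↔ ∃ d, C a d ∧ ∀ z ∈ F a d, μ z < μ a ∧ p z)
    (hμ : Primrec μ) : RI Y p := by
  refine RI.of_eq (p := fun a => ∃ t : List α, a ∈ t ∧ ∀ i < t.length, ∃ d, C (t.getD i a) d ∧
    ∀ z ∈ F (t.getD i a) d, μ z < μ (t.getD i a) ∧ z ∈ t) (RI.un (by fun_prop)) fun a => ?_
  have e : ∀ (t : List α) (q : α → Prop), (∀ i < t.length, q (t.getD i a)) ↔ ∀ x ∈ t, q x := fun t q => by
    rw [List.forall_mem_iff_forall_getElem]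
    exact forall₂_congr fun i k => by rw [List.getD_eq_getElem]
  simp only [fun t => e t fun x => ∃ d, C x d ∧ ∀ z ∈ F x d, μ z < μ x ∧ z ∈ t]
  clear e
  induction k : μ a using Nat.strong_induction_on generalizing a with
  | _ n ih =>
    refine ⟨fun ⟨t, b, c⟩ => (h a).2 ((c a b).imp fun d f => ⟨f.1, fun z m => ⟨(f.2 z m).1,
      (ih _ (k ▸ (f.2 z m).1) z rfl).1 ⟨t, (f.2 z m).2, c⟩⟩⟩), fun b => ?_⟩
    obtain ⟨d, c, f⟩ := (h a).1 b
    choose! t t1 t2 using fun z m => (ih _ (k ▸ (f z m).1) z rfl).2 (f z m).2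
    refine ⟨a :: (F a d).flatMap t, by simp, fun x m => ?_⟩
    rcases List.mem_cons.1 m with rfl | m
    · exact ⟨d, c, fun z m => ⟨(f z m).1, List.mem_cons_of_mem _ (List.mem_flatMap.2 ⟨z, m, t1 z m⟩)⟩⟩
    · obtain ⟨z, m, o⟩ := List.mem_flatMap.1 m
      exact (t2 z m x o).imp fun d g => ⟨g.1, fun y q => ⟨(g.2 y q).1, List.mem_cons_of_mem _
        (List.mem_flatMap.2 ⟨z, m, (g.2 y q).2⟩)⟩⟩

variable {M : Type} {L : Lang} {A : Str M} {ν : ℕ → M}

/-- a numbering with computable atomic diagram -/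
def Con (L : Lang) (A : Str M) (ν : ℕ → M) : Prop := Surjective ν ∧ ComputablePred (fun z : ℕ × ℕ => ν z.1 = ν z.2) ∧
  ComputablePred (fun z : ℕ × List ℕ => L.rel z.1 z.2.length ∧ A.rel z.1 (z.2.map ν)) ∧
    ComputablePred (fun z : ℕ × List ℕ => L.rel z.1 z.2.length ∧ ¬ A.rel z.1 (z.2.map ν)) ∧
      ComputablePred fun z : ℕ × List ℕ × ℕ => L.fn z.1 z.2.1.length ∧ A.fn z.1 (z.2.1.map ν) = ν z.2.2

def up (l : List ℕ) (i a : ℕ) : List ℕ := (List.range (l.length + i + 1)).map fun x => if x = i then a + 1 else l.getD x 0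

theorem up_getD (l : List ℕ) (i a x : ℕ) : (up l i a).getD x 0 = if x = i then a + 1 else l.getD x 0 := by
  by_cases h : x < l.length + i + 1
  · simp [up, h]
  · rw [List.getD_eq_default _ _ (by simpa [up] using h), if_neg (by omega), List.getD_eq_default _ _ (by omega)]

def Vs (l : List ℕ) : Set ℕ := {x | l.getD x 0 ≠ 0}
def As (ν : ℕ → M) (l : List ℕ) (x : ℕ) : M := ν (l.getD x 0 - 1)

@[simp] theorem vs_up (l : List ℕ) (i a : ℕ) : Vs (up l i a) = insert i (Vs l) := by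
  ext; simp only [Vs, mem_setOf, up_getD]; grind

@[simp] theorem as_up (l : List ℕ) (i a : ℕ) : As ν (up l i a) = update (As ν l) i (ν a) := by
  ext; simp only [As, up_getD]; grind [As]

def Tp (L : Lang) (A : Str M) (ν : ℕ → M) (a : ℕ × ℕ × List ℕ × ℕ) : Prop :=
  if a.1 = 0 then OkT L (Vs a.2.2.1) a.2.1 ∧ tm A (As ν a.2.2.1) a.2.1 = ν a.2.2.2 else
    Ok L a.2.1 (Vs a.2.2.1) ∧ (Sat A a.2.1 (As ν a.2.2.1) ↔ a.1 = 1)

def rk (a : ℕ × ℕ × List ℕ × ℕ) : ℕ := 3 * a.2.1 + min a.1 2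

theorem cp {p : α → Prop} : ComputablePred p → CI Y fun a => cd (p a) := fun ⟨_, h⟩ =>
  (Computable.ci h).of_eq fun a => by rw [Bool.eq_iff_iff]; simp

theorem cp' {p : α → Prop} (h : ComputablePred p) : ∃ E : α → Bool, CI Y E ∧ ∀ a, E a = cd (p a) :=
  ⟨_, cp h, fun _ => rfl⟩

theorem trec (h : Con L A ν) : ∃ (C : ℕ × ℕ × List ℕ × ℕ → List ℕ → Prop) (F : _ → List ℕ → List _),
    RI O (fun z : _ × _ => C z.1 z.2) ∧ Primrec (fun z : _ × _ => F z.1 z.2) ∧ ∀ a, Tp L A ν a ↔ ∃ d, C a d ∧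
      (∀ z ∈ F a d, rk z < rk a ∧ Tp L A ν z) ∧ (1 < a.1 → a.2.1 % 5 = 4 → ¬ Tp L A ν (1, a.2)) := by
  obtain ⟨s, h1, h2, h3, h4⟩ := h
  obtain ⟨E, e1, e2⟩ := cp' (Y := O) h1
  obtain ⟨R, r1, r2⟩ := cp' (Y := O) h2
  obtain ⟨N, n1, n2⟩ := cp' (Y := O) h3
  obtain ⟨G, g1, g2⟩ := cp' (Y := O) h4
  obtain ⟨T, t1, t2⟩ : ∃ T : ℕ → List ℕ → List ℕ → List (ℕ × ℕ × List ℕ × ℕ), Primrec (fun z : ℕ × List ℕ × List ℕ =>
    T z.1 z.2.1 z.2.2) ∧ ∀ k l d, T k l d = (List.range d.length).map fun i =>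
      (0, (ofNat (List ℕ) k).getD i 0, l, d.getD i 0) := ⟨_, by fun_prop, fun _ _ _ => rfl⟩
  have t3 : ∀ k l n (q : List M → Prop), 3 * k ≤ n → ((∃ d : List ℕ, (d.length = (ofNat (List ℕ) k).length ∧
      q (d.map ν)) ∧ ∀ z ∈ T k l d, rk z < n ∧ Tp L A ν z) ↔ (∀ s ∈ ofNat (List ℕ) k, OkT L (Vs l) s) ∧
        q ((ofNat (List ℕ) k).map (tm A (As ν l)))) := fun k l n q b => by
    have := @mem_lt k
    simp only [t2, List.forall_mem_map, List.mem_range, rk, Tp, if_pos]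
    generalize ofNat (List ℕ) k = u at *
    refine ⟨fun ⟨d, ⟨c, e⟩, f⟩ => ⟨fun x m => ?_, cast (congrArg q (List.ext_getElem (by simpa) fun i g o => ?_)) e⟩,
      fun ⟨c, e⟩ => ⟨u.map (surjInv s ∘ tm A (As ν l)), ⟨by simp, by simpa [comp_def, surjInv_eq] using e⟩,
        fun i f => ?_⟩⟩
    · obtain ⟨i, g, rfl⟩ := List.getElem_of_mem m
      simpa [g] using (f i (c ▸ g)).2.1
    · simp only [List.length_map] at g o
      simpa [g, o] using (f i g).2.2.symm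
    · simp only [List.length_map] at f
      have := this (List.getElem_mem f)
      simp [f, c, surjInv_eq]
      omega
  refine ⟨fun a d => (if a.1 = 0 then (if a.2.1 % 2 = 0 then cd (a.2.2.1.getD (a.2.1 / 2) 0 ≠ 0 ∧
      E (a.2.2.1.getD (a.2.1 / 2) 0 - 1, a.2.2.2) = true) else
        cd (d.length = (ofNat (List ℕ) (a.2.1 / 2).unpair.2).length ∧ G ((a.2.1 / 2).unpair.1, d, a.2.2.2) = true)) else
    if a.2.1 % 5 = 0 then cd (E (d.getD 0 0, d.getD 1 0) = cd (a.1 = 1)) else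
    if a.2.1 % 5 = 1 then cd (d.length = (ofNat (List ℕ) (a.2.1 / 5).unpair.2).length ∧
      (if a.1 = 1 then R ((a.2.1 / 5).unpair.1, d) else N ((a.2.1 / 5).unpair.1, d)) = true) else
    if a.2.1 % 5 = 3 then cd (cd (d.getD 0 0 = 0 ∧ d.getD 1 0 = 0) = cd (a.1 = 1)) else
      cd (a.1 = 1 → d.getD 1 0 = 0)) = true,
    fun a d => if a.1 = 0 then (if a.2.1 % 2 = 0 then [] else T (a.2.1 / 2).unpair.2 a.2.2.1 d) else
    if a.2.1 % 5 = 0 then [(0, (a.2.1 / 5).unpair.1, a.2.2.1, d.getD 0 0), (0, (a.2.1 / 5).unpair.2, a.2.2.1, d.getD 1 0)]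
    else if a.2.1 % 5 = 1 then T (a.2.1 / 5).unpair.2 a.2.2.1 d else
    if a.2.1 % 5 = 2 then [(if a.1 = 1 then 2 else 1, a.2.1 / 5, a.2.2.1, 0)] else
    if a.2.1 % 5 = 3 then [(d.getD 0 0 + 1, (a.2.1 / 5).unpair.1, a.2.2.1, 0),
      (d.getD 1 0 + 1, (a.2.1 / 5).unpair.2, a.2.2.1, 0)] else
      [(d.getD 1 0 + 1, (a.2.1 / 5).unpair.2, up a.2.2.1 (a.2.1 / 5).unpair.1 (d.getD 0 0), 0)],
    (i_ci (by fun_prop)).un, by unfold up; fun_prop, fun ⟨k, φ, l, b⟩ => ?_⟩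
  have := (φ / 2).unpair_right_le
  have := (φ / 5).unpair_left_le
  have := (φ / 5).unpair_right_le
  by_cases a : k = 0
  · subst a
    rw [Tp, OkT, tm]
    by_cases c : φ % 2 = 0
    · simp [c, e2, Vs, As]
    have := t3 (φ / 2).unpair.2 l (3 * φ) (fun u => L.fn (φ / 2).unpair.1 u.length ∧ A.fn (φ / 2).unpair.1 u = ν b)
      (by omega)
    simp only [List.length_map] at this
    simpa [c, g2, rk, and_assoc, and_left_comm] using this.symm
  have o : ∀ q : Prop, ∃ n : ℕ, n = 0 ↔ q := fun q => (em q).elim (fun _ => ⟨0, by simpa⟩) fun _ => ⟨1, by simpa⟩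
  have cc : ∀ q r : Prop, cd q = cd r ↔ (q ↔ r) := fun q r => by rw [Bool.eq_iff_iff]; simp
  rw [Tp, Ok, Sat]
  rcases (by omega : φ % 5 = 0 ∨ φ % 5 = 1 ∨ φ % 5 = 2 ∨ φ % 5 = 3 ∨ φ % 5 = 4) with c | c | c | c | c
  · obtain ⟨x, e⟩ := s (tm A (As ν l) (φ / 5).unpair.1)
    obtain ⟨y, f⟩ := s (tm A (As ν l) (φ / 5).unpair.2)
    simp only [a, c, e2, cc, Tp, rk, if_true, if_false, cd_true, List.forall_mem_cons]
    exact ⟨fun g => ⟨[x, y], by grind⟩, by grind⟩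
  · have := t3 (φ / 5).unpair.2 l (rk (k, φ, l, b)) (fun u => L.rel (φ / 5).unpair.1 u.length ∧
      (A.rel (φ / 5).unpair.1 u ↔ k = 1)) (by simp [rk]; omega)
    simp only [List.length_map] at this
    by_cases e : k = 1 <;> simpa [a, c, e, r2, n2, and_assoc, and_left_comm] using this.symm
  · refine ⟨fun g => ⟨[], ?_⟩, fun ⟨d, g⟩ => ?_⟩ <;> by_cases e : k = 1 <;> simp [a, c, e, Tp, rk] at g ⊢ <;> grind
  · obtain ⟨x, e⟩ := o (Sat A (φ / 5).unpair.1 (As ν l))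
    obtain ⟨y, f⟩ := o (Sat A (φ / 5).unpair.2 (As ν l))
    simp [a, c, cc, Tp, rk, -List.getD_eq_getElem?_getD]
    exact ⟨fun g => ⟨[x, y], by grind⟩, by grind⟩
  simp only [Tp]
  rw [Ok.eq_1 L φ, Sat.eq_1 A φ]
  simp [a, c, rk, -List.getD_eq_getElem?_getD, s.exists]
  obtain ⟨x, e⟩ := o (Sat A (φ / 5).unpair.2 (update (As ν l) (φ / 5).unpair.1 (ν 0)))
  exact ⟨fun g => (em (k = 1)).elim (fun f => (g.2.2 f).elim fun y m => ⟨[y, 0], by grind⟩) fun f => ⟨[0, x], by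
    have := fun y m => f (g.2.1 ⟨y, m⟩); grind⟩, by grind⟩

theorem vs_nil : Vs [] = Iio 0 := by simp [Vs]

theorem th_om (h : Con L A ν) : ∃ f : ℕ → ℕ, Computable f ∧ ∀ φ, Th L A φ ↔ Om (f φ) := by
  obtain ⟨C, F, a, b, c⟩ := trec h
  obtain ⟨f, d, e⟩ := arith (p := Tp L A ν) (μ := rk) (C := C) (F := fun a d => (F a d).map (·, true) ++
    if 1 < a.1 ∧ a.2.1 % 5 = 4 then [((1, a.2), false)] else []) (by unfold rk; fun_prop) (ri_re a) (by fun_prop)
      fun a => (c a).trans (exists_congr fun d => by split_ifs <;> simp [rk] <;> grind)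
  refine ⟨fun φ => f (1, φ, [], 0), by fun_prop, fun φ => .trans ?_ (e _)⟩
  simp only [Tp, Th, Fm, vs_nil, one_ne_zero, if_false, iff_true]
  exact and_congr_right fun g => ⟨(· _), fun k v => (g.congr (by simp)).1 k⟩

end Pool.Agent.H.MP_f36693_lc
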